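import Mathlib
import Pool.Agent.Helper52.NP.Final

set_option autoImplicit false

/-!
# Reduced curves with a `t`-fold point on a blow-up of the plane at at most eight points

The statement of Q1 is true for every `r ≤ 8` (and every `t ≥ 1`).

Let `p_1, …, p_r` be very general points of the plane, `r ≤ 8`, and let `X` be the blow-up.  A curve
of the linear system `|d H - ∑ m_i E_i|` on `X` is the divisor `π^* (F = 0) - ∑ m_i E_i`, where `F` is
a form of degree `d` of multiplicity `μ_i ≥ m_i` at `p_i`; the coefficient of `E_i` in it is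
`μ_i - m_i`.  The curve is reduced if and only if `F` is squarefree and `μ_i ≤ m_i + 1` for all `i`
(`IsReducedMember`).  The points of `X` are

* the points `x` of the plane different from all `p_i`, where the multiplicity of the curve is the
  multiplicity of `F` (`HasPlanePoint`);
* the points of the curves `E_i`.  A point of `E_i` is a tangent direction `v` at `p_i`; for a basis
  `p_i, v, w` of `ℂ ^ 3` the map `(y, z) ↦ [p_i + y v + y z w]` is a chart of `X` centered at this
  point, `y` is an equation of `E_i`, and a local equation of the curve is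
  `g (y, z) = F (p_i + y v + y z w) / y ^ m_i` (`HasExceptionalPoint`).
-/

open MvPolynomial

namespace Pool.Agent.Results.MP_b1ca72_ag.UpToEightPoints

/-- The point `[1 : a_0 : a_1]` of the plane with affine coordinates `a`. -/
def pt (a : Fin 2 → ℂ) : Fin 3 → ℂ := ![1, a 0, a 1]

/-- The form `F` has multiplicity at least `k` at the point `x` of the plane: the polynomial
`F (x + X)` has no term of degree less than `k`. -/
def MultGE (F : MvPolynomial (Fin 3) ℂ) (x : Fin 3 → ℂ) (k : ℕ) : Prop :=
  ∀ e : Fin 3 →₀ ℕ, e 0 + e 1 + e 2 < k → coeff e (aeval (fun i => X i + C (x i)) F) = 0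

/-- The curve `π^* (F = 0) - ∑ m_i E_i` is a reduced curve of the linear system
`|d H - ∑ m_i E_i|`: `F` is a squarefree form of degree `d` whose multiplicity at `p_i` is `m_i` or
`m_i + 1`. -/
structure IsReducedMember {r : ℕ} (p : Fin r → Fin 2 → ℂ) (d : ℕ) (m : Fin r → ℕ)
    (F : MvPolynomial (Fin 3) ℂ) : Prop where
  homogeneous : F.IsHomogeneous d
  squarefree : Squarefree F
  member : ∀ i, MultGE F (pt (p i)) (m i)
  exceptional : ∀ i, ¬ MultGE F (pt (p i)) (m i + 2)

/-- The curve has multiplicity `t` at a point `x` of the plane which is none of the points `p_i`. -/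
def HasPlanePoint {r : ℕ} (p : Fin r → Fin 2 → ℂ) (F : MvPolynomial (Fin 3) ℂ) (t : ℕ) : Prop :=
  ∃ x : Fin 3 → ℂ, x ≠ 0 ∧ (∀ i, LinearIndependent ℂ ![x, pt (p i)]) ∧
    MultGE F x t ∧ ¬ MultGE F x (t + 1)

/-- The curve `π^* (F = 0) - ∑ m_i E_i` has multiplicity `t` at a point of a curve `E_i`: the order
at the origin of its local equation `F (p_i + y v + y z w) / y ^ m_i` is `t`. -/
def HasExceptionalPoint {r : ℕ} (p : Fin r → Fin 2 → ℂ) (m : Fin r → ℕ)
    (F : MvPolynomial (Fin 3) ℂ) (t : ℕ) : Prop :=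
  ∃ (i : Fin r) (v w : Fin 3 → ℂ), LinearIndependent ℂ ![pt (p i), v, w] ∧
    ∃ g : MvPolynomial (Fin 2) ℂ,
      aeval (fun k => C (pt (p i) k) + C (v k) * X 0 + C (w k) * (X 0 * X 1) :
        Fin 3 → MvPolynomial (Fin 2) ℂ) F = X 0 ^ m i * g ∧
      (∀ e : Fin 2 →₀ ℕ, e 0 + e 1 < t → coeff e g = 0) ∧
      ∃ e : Fin 2 →₀ ℕ, e 0 + e 1 = t ∧ coeff e g ≠ 0

lemma far_of_independent {x : Fin 3 → ℂ} {a : Fin 2 → ℂ} (h : LinearIndependent ℂ ![x, pt a]) :
    Helper52.NP.Far x (Helper52.NP.pv a) := by
  by_contra hcon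
  unfold Helper52.NP.Far at hcon
  push Not at hcon
  rw [LinearIndependent.pair_iff] at h
  have h1 := h 1 (-(x 0)) (by
    ext i
    have h2 := hcon i 0
    simp only [Pi.add_apply, Pi.smul_apply, smul_eq_mul, Pi.zero_apply, one_mul]
    have h3 : (Helper52.NP.pv a) 0 = 1 := rfl
    rw [h3, mul_one] at h2
    rw [h2]
    show x 0 * pt a i + -x 0 * pt a i = 0
    ring)
  exact one_ne_zero h1.1

/-- **Main theorem.**  Let `r ≤ 8`.  For very general points `p_1, …, p_r` of the plane (outside the
zero sets of countably many nonzero polynomials in the `2 r` affine coordinates of the points) and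
all integers `d ≥ 1`, `t ≥ 1`, `m_1, …, m_r ≥ 0` satisfying the numerical inequality of the question,
no reduced curve of `|d H - ∑ m_i E_i|` has a point of multiplicity `t`. -/
theorem result (r : ℕ) (hr : r ≤ 8) :
    ∃ S : Set (MvPolynomial (Fin r × Fin 2) ℂ), S.Countable ∧
      (0 : MvPolynomial (Fin r × Fin 2) ℂ) ∉ S ∧
      ∀ p : Fin r → Fin 2 → ℂ,
        (∀ g ∈ S, MvPolynomial.eval (fun ij : Fin r × Fin 2 => p ij.1 ij.2) g ≠ 0) →
        ∀ (d t : ℕ) (m : Fin r → ℕ), 1 ≤ d → 1 ≤ t →
          (((d + 2).choose 2 : ℕ) : ℤ) - ∑ i, (((m i + 1).choose 2 : ℕ) : ℤ)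
            ≤ max ((((t + 1).choose 2 : ℕ) : ℤ) - 2) 0 →
          ∀ F : MvPolynomial (Fin 3) ℂ, IsReducedMember p d m F →
            ¬ (HasPlanePoint p F t ∨ HasExceptionalPoint p m F t) := by
  refine ⟨(fun g => map (algebraMap ℚ ℂ) g) '' {g : MvPolynomial (Fin r × Fin 2) ℚ | g ≠ 0},
    ?_, ?_, ?_⟩
  · have hcount : Countable (MvPolynomial (Fin r × Fin 2) ℚ) := by
      rw [← Cardinal.mk_le_aleph0_iff]
      refine cardinalMk_le_max.trans (max_le (max_le ?_ ?_) le_rfl)
      · exact Cardinal.mk_le_aleph0_iff.2 inferInstance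
      · exact Cardinal.mk_le_aleph0_iff.2 inferInstance
    exact (Set.to_countable _).image _
  · rintro ⟨g, hg, hg0⟩
    apply hg
    apply map_injective _ (algebraMap ℚ ℂ).injective
    rw [map_zero]
    exact hg0
  · intro p hp d t m _ _ hχ F hF hpt
    have hG : Helper52.NP.GP p := by
      unfold Helper52.NP.GP
      rw [algebraicIndependent_iff]
      intro g hg
      by_contra hne
      apply hp _ ⟨g, hne, rfl⟩
      rw [eval_map, ← aeval_def]
      exact hg
    have hF0 : F ≠ 0 := hF.squarefree.ne_zero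
    have hS := Helper52.NP.final_S hr hG hF.homogeneous hF0 hF.squarefree hF.member
    refine Helper52.NP.contra hχ hS ?_
    rcases hpt with ⟨x, hx, hxp, hxt, -⟩ | ⟨i, v, w, hli, g, hg, hg1, hg2⟩
    · exact Helper52.NP.final_P hr hG hF.homogeneous hF0 hF.squarefree hF.member hx
        (fun i => far_of_independent (hxp i)) hxt
    · have hdet : (Matrix.of ![pt (p i), v, w]).det ≠ 0 := by
        have h1 : LinearIndependent ℂ (Matrix.of ![pt (p i), v, w]).row := hli
        rw [Matrix.linearIndependent_rows_iff_isUnit] at h1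
        exact ((Matrix.isUnit_iff_isUnit_det _).1 h1).ne_zero
      exact Helper52.NP.final_I hr hG hF.homogeneous hF0 hF.squarefree hF.member hF.exceptional i
        (M0 := ⟨pt (p i), v, w, hdet⟩) rfl
        (Helper52.NP.o2_of_chart ⟨pt (p i), v, w, hdet⟩ hF.homogeneous hF0 hg hg1 hg2)

end Pool.Agent.Results.MP_b1ca72_ag.UpToEightPoints
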